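import Pool.Agent.W667.DT.Stms

set_option autoImplicit false
set_option maxSynthPendingDepth 3

/-!
Project DT: induction over the height.
-/

namespace Pool.Agent.W479.DT

open Pool.Agent.Helper832.GD Pool.Agent.Helper832.GD.Bim ContinuousLinearMap Topology Filter
open Pool.Agent.W667.DT

/-- a bimodule with one element has dimension at most `n` -/
theorem dn_of_subsingleton {A : Type} [NonUnitalNormedRing A] [NormedSpace ℂ A]
    [IsScalarTower ℂ A A] [SMulCommClass ℂ A A] (X : Bim A A) (hX : ∀ x y : X.carrier, x = y) :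
    ∀ n, Dn n X := by
  have hproj : X.Projective := by
    intro Y Z σ φ _ _ _
    refine ⟨0, ⟨fun a x => by simp, fun a x => by simp⟩, fun p => ?_⟩
    rw [hX p 0]
    simp
  intro n
  induction n with
  | zero => exact hproj
  | succ n ih =>
    refine ⟨X, X, hproj, ih, ContinuousLinearMap.id ℂ X.carrier, ContinuousLinearMap.id ℂ X.carrier,
      ContinuousLinearMap.id ℂ X.carrier, ContinuousLinearMap.id ℂ X.carrier,
      ⟨fun _ _ => rfl, fun _ _ => rfl⟩, ⟨fun _ _ => rfl, fun _ _ => rfl⟩,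
      fun _ => rfl, fun _ => rfl, fun _ => hX _ _, fun _ => hX _ _⟩

section Topology

variable {Ω : Type} [TopologicalSpace Ω] [CompactSpace Ω] [T2Space Ω] [TotallyDisconnectedSpace Ω]

/-- a clopen set is split into clopen sets which contain at most one point of `G` -/
theorem split (G : Set Ω) : ∀ (n : ℕ) (V : Set Ω), IsClopen V → (V ∩ G).Finite →
    (V ∩ G).ncard ≤ n → ∃ 𝒲 : Set (Set Ω), (∀ W ∈ 𝒲, IsClopen W ∧ W.Nonempty ∧
      (W ∩ G).Subsingleton) ∧ 𝒲.PairwiseDisjoint id ∧ ⋃₀ 𝒲 = V := by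
  intro n
  induction n with
  | zero =>
    intro V hV hfin hcard
    by_cases hne : V.Nonempty
    · refine ⟨{V}, ?_, Set.pairwiseDisjoint_singleton _ _, Set.sUnion_singleton V⟩
      rintro W rfl
      refine ⟨hV, hne, ?_⟩
      have : (W ∩ G).ncard = 0 := by omega
      rw [Set.ncard_eq_zero hfin] at this
      rw [this]
      exact Set.subsingleton_empty
    · refine ⟨∅, by simp, Set.pairwiseDisjoint_empty, ?_⟩
      rw [Set.sUnion_empty, Set.not_nonempty_iff_eq_empty.1 hne]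
  | succ n ih =>
    intro V hV hfin hcard
    by_cases hsub : (V ∩ G).Subsingleton
    · by_cases hne : V.Nonempty
      · refine ⟨{V}, ?_, Set.pairwiseDisjoint_singleton _ _, Set.sUnion_singleton V⟩
        rintro W rfl
        exact ⟨hV, hne, hsub⟩
      · refine ⟨∅, by simp, Set.pairwiseDisjoint_empty, ?_⟩
        rw [Set.sUnion_empty, Set.not_nonempty_iff_eq_empty.1 hne]
    · rw [Set.not_subsingleton_iff] at hsub
      obtain ⟨x, hx, y, hy, hxy⟩ := hsub
      obtain ⟨C, hC, hxC, hyC⟩ := exists_isClopen_of_totally_separated hxy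
      have h1 : (V ∩ C ∩ G) ⊂ V ∩ G := by
        refine ⟨fun z hz => ⟨hz.1.1, hz.2⟩, fun h => ?_⟩
        exact hyC (h hy).1.2
      have h2 : ((V \ C) ∩ G) ⊂ V ∩ G := by
        refine ⟨fun z hz => ⟨hz.1.1, hz.2⟩, fun h => ?_⟩
        exact (h hx).1.2 hxC
      have c1 := Set.ncard_lt_ncard h1 hfin
      have c2 := Set.ncard_lt_ncard h2 hfin
      obtain ⟨𝒲₁, a1, b1, e1⟩ := ih (V ∩ C) (hV.inter hC) (hfin.subset h1.1) (by omega)
      obtain ⟨𝒲₂, a2, b2, e2⟩ := ih (V \ C) (hV.diff hC) (hfin.subset h2.1) (by omega)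
      refine ⟨𝒲₁ ∪ 𝒲₂, ?_, ?_, ?_⟩
      · rintro W (hW | hW)
        · exact a1 W hW
        · exact a2 W hW
      · have key : ∀ W₁ ∈ 𝒲₁, ∀ W₂ ∈ 𝒲₂, Disjoint W₁ W₂ := by
          intro W₁ hW₁ W₂ hW₂
          rw [Set.disjoint_left]
          intro z hz1 hz2
          have m1 : z ∈ V ∩ C := by
            rw [← e1]
            exact ⟨W₁, hW₁, hz1⟩
          have m2 : z ∈ V \ C := by
            rw [← e2]
            exact ⟨W₂, hW₂, hz2⟩
          exact m2.2 m1.2
        rintro W₁ (h1 | h1) W₂ (h2 | h2) hne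
        · exact b1 h1 h2 hne
        · exact key W₁ h1 W₂ h2
        · exact (key W₂ h2 W₁ h1).symm
        · exact b2 h1 h2 hne
      · rw [Set.sUnion_union, e1, e2, Set.inter_union_sdiff]

/-- the finiteness of the next level -/
theorem finite_level (G V : Set Ω) (hV : IsClopen V) (h : Disjoint V (derivedSet G)) :
    (V ∩ G).Finite := by
  by_contra hinf
  obtain ⟨x, hx, hacc⟩ := Set.Infinite.exists_accPt_of_subset_isCompact hinf
    hV.isClosed.isCompact Set.inter_subset_left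
  have h1 : x ∈ derivedSet G := derivedSet_mono _ _ Set.inter_subset_right hacc
  exact Set.disjoint_left.1 h hx h1

theorem ind_claim (hL : S_LEVEL) (hp : ∀ p : Ω, DU ({p}ᶜ : Set Ω)) :
    ∀ (r : ℕ) (I : Type) (V : I → Set Ω), (∀ i, IsClopen (V i)) →
      (Pairwise fun i j => Disjoint (V i) (V j)) → (∀ i, Disjoint (V i) (Dr Ω r)) →
      Dn 2 (Ib (⋃ i, V i)) := by
  classical
  intro r
  induction r with
  | zero =>
    intro I V _ _ hD
    have hempty : (⋃ i, V i) = ∅ := by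
      rw [Set.iUnion_eq_empty]
      intro i
      have h1 := hD i
      rw [Dr, Set.disjoint_univ] at h1
      exact h1
    rw [hempty]
    apply dn_of_subsingleton
    intro x y
    apply Subtype.ext
    ext w
    rw [x.2 w (Set.notMem_empty w), y.2 w (Set.notMem_empty w)]
  | succ r ih =>
    intro I V hcl hdisj hD
    have hsplit : ∀ i, ∃ 𝒲 : Set (Set Ω), (∀ W ∈ 𝒲, IsClopen W ∧ W.Nonempty ∧
        (W ∩ Dr Ω r).Subsingleton) ∧ 𝒲.PairwiseDisjoint id ∧ ⋃₀ 𝒲 = V i := by
      intro i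
      exact split (Dr Ω r) _ (V i) (hcl i) (finite_level _ _ (hcl i) (hD i)) le_rfl
    choose 𝒲 h𝒲 hdis𝒲 hun𝒲 using hsplit
    have hsub𝒲 : ∀ i, ∀ W ∈ 𝒲 i, W ⊆ V i := by
      intro i W hW
      rw [← hun𝒲 i]
      exact Set.subset_sUnion_of_mem hW
    have hpt : ∀ k : (Σ i, {W // W ∈ 𝒲 i}), ∃ x ∈ k.2.1, k.2.1 ∩ Dr Ω r ⊆ {x} := by
      rintro ⟨i, W, hW⟩
      obtain ⟨-, hne, hss⟩ := h𝒲 i W hW
      by_cases hG : (W ∩ Dr Ω r).Nonempty
      · obtain ⟨x, hx⟩ := hG
        exact ⟨x, hx.1, fun y hy => hss hy hx⟩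
      · obtain ⟨x, hx⟩ := hne
        refine ⟨x, hx, ?_⟩
        show W ∩ Dr Ω r ⊆ {x}
        rw [Set.not_nonempty_iff_eq_empty.1 hG]
        exact Set.empty_subset _
    choose pt hptm hpts using hpt
    have hPdisj : Pairwise fun k k' : (Σ i, {W // W ∈ 𝒲 i}) => Disjoint k.2.1 k'.2.1 := by
      rintro ⟨i, W, hW⟩ ⟨j, W', hW'⟩ hne
      by_cases hij : i = j
      · subst hij
        apply hdis𝒲 i hW hW'
        rintro rfl
        exact hne rfl
      · exact Set.disjoint_of_subset (hsub𝒲 i W hW) (hsub𝒲 j W' hW') (hdisj hij)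
    let P : PBlk Ω :=
      { I := Σ i, {W // W ∈ 𝒲 i}
        V := fun k => k.2.1
        pt := pt
        clopen := fun k => (h𝒲 k.1 k.2.1 k.2.2).1
        disj := hPdisj
        mem := hptm }
    have hPU : P.U = ⋃ i, V i := by
      ext w
      rw [PBlk.U, Set.mem_iUnion, Set.mem_iUnion]
      constructor
      · rintro ⟨k, hk⟩
        exact ⟨k.1, hsub𝒲 k.1 k.2.1 k.2.2 hk⟩
      · rintro ⟨i, hi⟩
        rw [← hun𝒲 i] at hi
        obtain ⟨W, hW, hw⟩ := hi
        exact ⟨⟨i, W, hW⟩, hw⟩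
    -- the sets without their points
    have hp' : ∀ k : P.I, ∃ 𝒟 : Set (Set Ω), (∀ C ∈ 𝒟, IsClopen C) ∧ 𝒟.PairwiseDisjoint id ∧
        ⋃₀ 𝒟 = ({P.pt k}ᶜ : Set Ω) := fun k => hp (P.pt k)
    choose 𝒟 hcl𝒟 hdis𝒟 hun𝒟 using hp'
    let B₁ : Blk Ω P.I :=
      { I := Σ k : P.I, {C // C ∈ 𝒟 k}
        V := fun j => j.2.1 ∩ P.V j.1
        l := fun j => j.1
        clopen := fun j => (hcl𝒟 j.1 j.2.1 j.2.2).inter (P.clopen j.1)
        disj := by
          rintro ⟨k, C, hC⟩ ⟨k', C', hC'⟩ hne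
          by_cases hkk : k = k'
          · subst hkk
            have hCC : Disjoint C C' := by
              apply hdis𝒟 k hC hC'
              rintro rfl
              exact hne rfl
            exact Set.disjoint_of_subset Set.inter_subset_left Set.inter_subset_left hCC
          · exact Set.disjoint_of_subset Set.inter_subset_right Set.inter_subset_right
              (P.disj hkk) }
    have hB1 : ∀ j, B₁.V j ⊆ P.V (B₁.l j) := fun j => Set.inter_subset_right
    have hB2 : B₁.U = P.U' := by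
      ext w
      rw [Blk.U, PBlk.U', Set.mem_iUnion, Set.mem_iUnion]
      constructor
      · rintro ⟨⟨k, C, hC⟩, hw⟩
        refine ⟨k, hw.2, ?_⟩
        have h1 : w ∈ ({P.pt k}ᶜ : Set Ω) := by
          rw [← hun𝒟 k]
          exact ⟨C, hC, hw.1⟩
        exact h1
      · rintro ⟨k, hw, hwk⟩
        have h1 : w ∈ ({P.pt k}ᶜ : Set Ω) := hwk
        rw [← hun𝒟 k] at h1
        obtain ⟨C, hC, hwC⟩ := h1
        exact ⟨⟨k, C, hC⟩, hwC, hw⟩
    have hB3 : ∀ j, Disjoint (B₁.V j) (Dr Ω r) := by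
      rintro ⟨k, C, hC⟩
      rw [Set.disjoint_left]
      intro w hw hwr
      have h1 : w ∈ ({P.pt k} : Set Ω) := hpts k ⟨hw.2, hwr⟩
      have h2 : w ∈ ({P.pt k}ᶜ : Set Ω) := by
        rw [← hun𝒟 k]
        exact ⟨C, hC, hw.1⟩
      exact h2 h1
    have h1 : Dn 2 (Ib B₁.U) := ih B₁.I B₁.V B₁.clopen B₁.disj hB3
    rw [hB2] at h1
    have h2 := hL Ω P B₁ hB1 hB2 h1
    rw [hPU] at h2
    exact h2

end Topology

theorem ind_height : S_IND := by
  intro hL Ω _ _ _ _ hp h hh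
  have h1 := ind_claim hL hp h PUnit (fun _ => Set.univ) (fun _ => isClopen_univ)
    (fun i j hij => absurd (Subsingleton.elim i j) hij) (fun _ => by
      rw [hh]
      exact Set.disjoint_empty _)
  rw [Set.iUnion_const] at h1
  exact h1

end Pool.Agent.W479.DT
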